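import Pool.Agent.H84.RX.Lst
import Pool.Agent.H10.CI.CDefs

/-!
# Intersection numbers of cubes from intersection numbers of lists

`inter_of_interL`: the group `A` with the commuting elements `e w` is coarsely embedded into a group `Λ` with
intersection numbers of lists; then `A` has intersection numbers of the cubes `(g, s)`. The cube `(g, s)` is replaced by
the sum of the lists of its vertices along the edge paths from `g` to the opposite vertex.
-/

set_option autoImplicit false
set_option linter.unusedSectionVars false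

open Finset

namespace Pool.Agent.H45.DA

open Pool.Agent.H37.TM (lin lin_single lin_congr lin_lin map_lin lin_add add_self_mod)
open Pool.Agent.H65.RM (Inter sum_pairs_zero lin_mapDomain mapDomain_lin)
open Pool.Agent.H84.RX (InterL lin_supp)
open Pool.Agent.H10.CI (CoarseEmb)

/-! ### The boundary of lists -/

/-- the boundary of a list -/
noncomputable def dl {A : Type} (σ : List A) : List A →₀ ZMod 2 :=
  ∑ i ∈ range σ.length, Finsupp.single (σ.eraseIdx i) 1

theorem dl_cons {A : Type} (g : A) (σ : List A) :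
    dl (g :: σ) = Finsupp.single σ 1 + (dl σ).mapDomain (g :: ·) := by
  unfold dl
  rw [List.length_cons, sum_range_succ', Finsupp.mapDomain_finsetSum, add_comm]
  congr 1
  refine sum_congr rfl fun i _ => ?_
  rw [Finsupp.mapDomain_single, List.eraseIdx_cons_succ]

theorem lin_dl_cons {A : Type} (g : A) (x : List A →₀ ZMod 2) :
    lin dl (x.mapDomain (g :: ·)) = x + (lin dl x).mapDomain (g :: ·) := by
  have h1 : lin dl (x.mapDomain (g :: ·)) =
      lin (fun σ => Finsupp.single σ 1 + (dl σ).mapDomain (g :: ·)) x := by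
    rw [lin_mapDomain]
    exact lin_congr fun c _ => dl_cons g c
  rw [h1, lin_add, mapDomain_lin]
  congr 1
  unfold lin
  rw [Finsupp.linearCombination_apply, Finsupp.sum]
  have h2 : ∀ c ∈ x.support, x c • Finsupp.single c (1 : ZMod 2) = Finsupp.single c (x c) := by
    intro c _
    rw [Finsupp.smul_single, smul_eq_mul, mul_one]
  rw [sum_congr rfl h2]
  exact Finsupp.sum_single x

/-! ### The chain of a cube -/

section

variable {A W : Type} [Group A] [DecidableEq W]

/-- the chain of the cube `(g, s)`, `m` the number of elements of `s` -/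
noncomputable def qc (e : W → A) : ℕ → A → Finset W → (List A →₀ ZMod 2)
  | 0, g, _ => Finsupp.single [g] 1
  | m + 1, g, s => ∑ w ∈ s, (qc e m (g * e w) (s.erase w)).mapDomain (g :: ·)

theorem qc_smul (e : W → A) (h : A) : ∀ (m : ℕ) (g : A) (s : Finset W),
    qc e m (h * g) s = (qc e m g s).mapDomain (List.map (h * ·))
  | 0, g, s => by
    unfold qc
    rw [Finsupp.mapDomain_single]
    rfl
  | m + 1, g, s => by
    unfold qc
    rw [Finsupp.mapDomain_finsetSum]
    refine sum_congr rfl fun w _ => ?_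
    rw [mul_assoc, qc_smul e h m, ← Finsupp.mapDomain_comp, ← Finsupp.mapDomain_comp]
    rfl

theorem qc_len (e : W → A) : ∀ (m : ℕ) (g : A) (s : Finset W) (σ : List A), qc e m g s σ ≠ 0 →
    σ.length = m + 1
  | 0, g, s, σ, h => by
    classical
    unfold qc at h
    rw [Finsupp.single_apply] at h
    by_cases h1 : [g] = σ
    · rw [← h1]
      rfl
    · exact absurd (if_neg h1) h
  | m + 1, g, s, σ, h => by
    classical
    unfold qc at h
    rw [Finsupp.finsetSum_apply] at h
    obtain ⟨w, -, hne⟩ := exists_ne_zero_of_sum_ne_zero h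
    have h1 := Finsupp.mapDomain_support (Finsupp.mem_support_iff.2 hne)
    obtain ⟨τ, hτ, rfl⟩ := mem_image.1 h1
    rw [List.length_cons, qc_len e m _ _ τ (Finsupp.mem_support_iff.1 hτ)]

/-- the boundary of the chain of a cube -/
theorem qc_bd {O : SimpleGraph W} {e : W → A} (hc : ∀ u w, O.Adj u w → e u * e w = e w * e u) :
    ∀ (m : ℕ) (g : A) (s : Finset W), O.IsClique (s : Set W) → s.card = m + 1 →
      lin dl (qc e (m + 1) g s) = ∑ w ∈ s, (qc e m g (s.erase w) + qc e m (g * e w) (s.erase w))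
  | 0, g, s, _, _ => by
    show lin dl (∑ w ∈ s, (qc e 0 (g * e w) (s.erase w)).mapDomain (g :: ·)) = _
    rw [map_sum]
    refine sum_congr rfl fun w _ => ?_
    rw [lin_dl_cons]
    unfold qc
    rw [lin_single]
    have h1 : dl [g * e w] = Finsupp.single [] 1 := by
      unfold dl
      rw [List.length_singleton, sum_range_one]
      rfl
    rw [h1, Finsupp.mapDomain_single, add_comm]
  | m + 1, g, s, hs, hcard => by
    have hfc : ∀ w ∈ s, O.IsClique ((s.erase w : Finset W) : Set W) ∧ (s.erase w).card = m + 1 := by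
      intro w hw
      refine ⟨hs.subset (by exact_mod_cast erase_subset w s), ?_⟩
      rw [card_erase_of_mem hw, hcard]
      rfl
    show lin dl (∑ w ∈ s, (qc e (m + 1) (g * e w) (s.erase w)).mapDomain (g :: ·)) = _
    rw [map_sum]
    have h1 : ∀ w ∈ s, lin dl ((qc e (m + 1) (g * e w) (s.erase w)).mapDomain (g :: ·)) =
        qc e (m + 1) (g * e w) (s.erase w) +
          (∑ u ∈ s.erase w, (qc e m (g * e w) ((s.erase w).erase u)).mapDomain (g :: ·) +
          ∑ u ∈ s.erase w, (qc e m (g * e w * e u) ((s.erase w).erase u)).mapDomain (g :: ·)) := by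
      intro w hw
      rw [lin_dl_cons, qc_bd hc m _ _ (hfc w hw).1 (hfc w hw).2, Finsupp.mapDomain_finsetSum,
        ← sum_add_distrib]
      congr 1
      exact sum_congr rfl fun u _ => Finsupp.mapDomain_add
    rw [sum_congr rfl h1, sum_add_distrib, sum_add_distrib, sum_add_distrib]
    have h2 : ∑ w ∈ s, ∑ u ∈ s.erase w,
        (qc e m (g * e w * e u) ((s.erase w).erase u)).mapDomain (g :: ·) = 0 := by
      refine sum_pairs_zero s _ fun u hu w hw huw => ?_
      have h4 : O.Adj u w := hs hu hw huw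
      rw [Finset.erase_right_comm, mul_assoc g (e u) (e w), hc u w h4, ← mul_assoc g (e w) (e u)]
    have h3 : ∑ w ∈ s, ∑ u ∈ s.erase w,
        (qc e m (g * e w) ((s.erase w).erase u)).mapDomain (g :: ·) =
        ∑ w ∈ s, qc e (m + 1) g (s.erase w) := by
      have h5 : ∀ w ∈ s, qc e (m + 1) g (s.erase w) = ∑ u ∈ s.erase w,
          (qc e m (g * e u) ((s.erase w).erase u)).mapDomain (g :: ·) := fun w _ => rfl
      rw [sum_congr rfl h5, Finset.sum_sigma', Finset.sum_sigma']
      refine sum_bij' (fun p _ => ⟨p.2, p.1⟩) (fun p _ => ⟨p.2, p.1⟩) ?_ ?_ ?_ ?_ ?_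
      · rintro ⟨v, w⟩ h
        simp only [mem_sigma, mem_erase] at h ⊢
        exact ⟨h.2.2, fun h' => h.2.1 h'.symm, h.1⟩
      · rintro ⟨w, v⟩ h
        simp only [mem_sigma, mem_erase] at h ⊢
        exact ⟨h.2.2, fun h' => h.2.1 h'.symm, h.1⟩
      · rintro ⟨v, w⟩ _
        rfl
      · rintro ⟨v, w⟩ _
        rfl
      · rintro ⟨v, w⟩ _
        show _ = (qc e m (g * e v) ((s.erase w).erase v)).mapDomain (g :: ·)
        rw [Finset.erase_right_comm]
    rw [h2, h3, add_zero, add_comm]

end

/-! ### The pairing -/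

/-- the bilinear extension -/
noncomputable def pair {B : Type} (F : B → B → ZMod 2) (x y : B →₀ ZMod 2) : ZMod 2 :=
  lin (fun σ => lin (fun τ => F σ τ) y) x

section

variable {B : Type} (F : B → B → ZMod 2)

theorem pair_sum (x y : B →₀ ZMod 2) :
    pair F x y = ∑ σ ∈ x.support, ∑ τ ∈ y.support, F σ τ := by
  unfold pair
  rw [lin_supp]
  exact sum_congr rfl fun σ _ => lin_supp _ _

theorem pair_add_l (x x' y : B →₀ ZMod 2) : pair F (x + x') y = pair F x y + pair F x' y := by
  unfold pair
  rw [map_add]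

theorem pair_add_r (x y y' : B →₀ ZMod 2) : pair F x (y + y') = pair F x y + pair F x y' := by
  unfold pair
  rw [← lin_add]
  exact lin_congr fun c _ => by rw [map_add]

theorem pair_sum_l {ι : Type} (s : Finset ι) (x : ι → (B →₀ ZMod 2)) (y : B →₀ ZMod 2) :
    pair F (∑ i ∈ s, x i) y = ∑ i ∈ s, pair F (x i) y := by
  unfold pair
  rw [map_sum]

theorem pair_comm (x y : B →₀ ZMod 2) :
    pair F x y = pair (fun σ τ => F τ σ) y x := by
  rw [pair_sum, pair_sum, sum_comm]

theorem pair_sum_r {ι : Type} (s : Finset ι) (x : B →₀ ZMod 2) (y : ι → (B →₀ ZMod 2)) :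
    pair F x (∑ i ∈ s, y i) = ∑ i ∈ s, pair F x (y i) := by
  rw [pair_comm, pair_sum_l]
  exact sum_congr rfl fun i _ => (pair_comm F x (y i)).symm

theorem pair_ne {x y : B →₀ ZMod 2} (h : pair F x y ≠ 0) :
    ∃ σ τ, x σ ≠ 0 ∧ y τ ≠ 0 ∧ F σ τ ≠ 0 := by
  rw [pair_sum] at h
  obtain ⟨σ, hσ, h1⟩ := exists_ne_zero_of_sum_ne_zero h
  obtain ⟨τ, hτ, h2⟩ := exists_ne_zero_of_sum_ne_zero h1
  exact ⟨σ, τ, Finsupp.mem_support_iff.1 hσ, Finsupp.mem_support_iff.1 hτ, h2⟩

end

/-- the relation for chains of nonempty lists -/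
theorem pair_rel {A : Type} {F : List A → List A → ZMod 2}
    (hF : ∀ σ τ, σ ≠ [] → τ ≠ [] →
      lin (fun σ' => F σ' τ) (dl σ) + lin (fun τ' => F σ τ') (dl τ) = F σ τ + F τ σ)
    {x y : List A →₀ ZMod 2} (hx : ∀ σ, x σ ≠ 0 → σ ≠ []) (hy : ∀ τ, y τ ≠ 0 → τ ≠ []) :
    pair F (lin dl x) y + pair F x (lin dl y) = pair F x y + pair F y x := by
  have h1 : pair F (lin dl x) y = ∑ σ ∈ x.support, ∑ τ ∈ y.support, lin (fun σ' => F σ' τ) (dl σ) := by
    rw [pair_comm]
    unfold pair
    rw [lin_supp (x := y), sum_comm]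
    refine sum_congr rfl fun τ _ => ?_
    rw [← lin_lin, lin_supp]
  have h2 : pair F x (lin dl y) = ∑ σ ∈ x.support, ∑ τ ∈ y.support, lin (fun τ' => F σ τ') (dl τ) := by
    unfold pair
    rw [lin_supp (x := x)]
    refine sum_congr rfl fun σ _ => ?_
    rw [← lin_lin, lin_supp]
  have h3 : pair F y x = ∑ σ ∈ x.support, ∑ τ ∈ y.support, F τ σ := by
    rw [pair_sum, sum_comm]
  rw [h1, h2, h3, pair_sum, ← sum_add_distrib, ← sum_add_distrib]
  refine sum_congr rfl fun σ hσ => ?_
  rw [← sum_add_distrib, ← sum_add_distrib]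
  exact sum_congr rfl fun τ hτ => hF σ τ (hx σ (Finsupp.mem_support_iff.1 hσ))
    (hy τ (Finsupp.mem_support_iff.1 hτ))

/-! ### The theorem -/

section

variable {A Λ W : Type} [Group A] [Group Λ] [DecidableEq W]

/-- the translated images of a list under a coarse embedding are finitely many -/
theorem fin_shapes {f : A → Λ} (hf : CoarseEmb f) : ∀ τ : List A,
    {l : List Λ | ∃ g : A, τ.map (fun a => (f g)⁻¹ * f (g * a)) = l}.Finite
  | [] => by
    refine (Set.finite_singleton ([] : List Λ)).subset ?_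
    rintro l ⟨g, rfl⟩
    rfl
  | a :: τ => by
    refine ((hf.lip a).image2 List.cons (fin_shapes hf τ)).subset ?_
    rintro l ⟨g, rfl⟩
    exact ⟨_, ⟨g, rfl⟩, _, ⟨g, rfl⟩, rfl⟩

/-- **Intersection numbers of the cubes from intersection numbers of lists.** -/
theorem inter_of_interL [Fintype W] (O : SimpleGraph W) (e : W → A)
    (hc : ∀ u w, O.Adj u w → e u * e w = e w * e u) {n : ℕ} {H : List Λ → List Λ → ZMod 2}
    (hH : InterL Λ n H) {f : A → Λ} (hf : CoarseEmb f) :
    ∃ H' : A → Finset W → A → Finset W → ZMod 2, Inter O e n H' := by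
  classical
  let F : List A → List A → ZMod 2 := fun σ τ => H (σ.map f) (τ.map f)
  have hF : ∀ σ τ, σ ≠ [] → τ ≠ [] →
      lin (fun σ' => F σ' τ) (dl σ) + lin (fun τ' => F σ τ') (dl τ) = F σ τ + F τ σ := by
    intro σ τ hσ hτ
    have h1 := hH.rel (σ.map f) (τ.map f) (fun h => hσ (List.map_eq_nil_iff.1 h))
      (fun h => hτ (List.map_eq_nil_iff.1 h))
    rw [List.length_map, List.length_map] at h1
    rw [show F σ τ + F τ σ = H (σ.map f) (τ.map f) + H (τ.map f) (σ.map f) from rfl, ← h1]
    unfold dl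
    rw [map_sum, map_sum]
    congr 1
    · refine sum_congr rfl fun i _ => ?_
      rw [lin_single, List.eraseIdx_map]
    · refine sum_congr rfl fun i _ => ?_
      rw [lin_single, List.eraseIdx_map]
  have hne : ∀ (g : A) (s : Finset W) (σ : List A), qc e s.card g s σ ≠ 0 → σ ≠ [] := by
    rintro g s σ h rfl
    have := qc_len e s.card g s [] h
    simp at this
  -- the boundary of a cube
  have hbl : ∀ (g : A) (s : Finset W) (y : List A →₀ ZMod 2), O.IsClique (s : Set W) →
      ∑ w ∈ s, (pair F (qc e (s.erase w).card g (s.erase w)) y +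
        pair F (qc e (s.erase w).card (g * e w) (s.erase w)) y) =
      pair F (lin dl (qc e s.card g s)) y := by
    intro g s y hs
    obtain ⟨m, hm⟩ : ∃ m, s.card = m := ⟨_, rfl⟩
    cases m with
    | zero =>
      rw [card_eq_zero] at hm
      subst hm
      rw [sum_empty, card_empty]
      unfold qc
      rw [lin_single]
      have h1 : dl [g] = Finsupp.single [] 1 := by
        unfold dl
        rw [List.length_singleton, sum_range_one]
        rfl
      rw [h1]
      unfold pair
      rw [lin_single]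
      symm
      rw [lin_supp]
      exact sum_eq_zero fun τ _ => hH.nil_left _
    | succ m =>
      rw [hm, qc_bd hc m g s hs hm, pair_sum_l]
      refine sum_congr rfl fun w hw => ?_
      rw [pair_add_l, card_erase_of_mem hw, hm]
      rfl
  have hbr : ∀ (g : A) (s : Finset W) (x : List A →₀ ZMod 2), O.IsClique (s : Set W) →
      ∑ w ∈ s, (pair F x (qc e (s.erase w).card g (s.erase w)) +
        pair F x (qc e (s.erase w).card (g * e w) (s.erase w))) =
      pair F x (lin dl (qc e s.card g s)) := by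
    intro g s x hs
    obtain ⟨m, hm⟩ : ∃ m, s.card = m := ⟨_, rfl⟩
    cases m with
    | zero =>
      rw [card_eq_zero] at hm
      subst hm
      rw [sum_empty, card_empty]
      unfold qc
      rw [lin_single]
      have h1 : dl [g] = Finsupp.single [] 1 := by
        unfold dl
        rw [List.length_singleton, sum_range_one]
        rfl
      rw [h1]
      unfold pair
      symm
      rw [lin_supp]
      refine sum_eq_zero fun τ _ => ?_
      rw [lin_single]
      exact hH.nil_right _
    | succ m =>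
      rw [hm, qc_bd hc m g s hs hm, pair_sum_r]
      refine sum_congr rfl fun w hw => ?_
      rw [pair_add_r, card_erase_of_mem hw, hm]
      rfl
  refine ⟨fun g s g' s' => pair F (qc e s.card g s) (qc e s'.card g' s'), ?_, ?_, ?_, ?_⟩
  · intro g s g' s' hs hs'
    rw [hbl g s _ hs, hbr g' s' _ hs']
    exact pair_rel hF (hne g s) (hne g' s')
  · intro g s g' s' _ _ hn
    by_contra h
    obtain ⟨σ, τ, h1, h2, h3⟩ := pair_ne F h
    refine h3 (hH.top _ _ ?_)
    rw [List.length_map, List.length_map, qc_len e _ _ _ _ h1, qc_len e _ _ _ _ h2]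
    omega
  · show pair F (qc e 0 1 ∅) (qc e 0 1 ∅) = 1
    unfold qc pair
    rw [lin_single, lin_single]
    exact hH.one (f 1)
  · -- the shapes
    let T : Finset (List A) := univ.biUnion fun s : Finset W => (qc e s.card 1 s).support
    have hT : ∀ (g : A) (s : Finset W) (σ : List A), qc e s.card g s σ ≠ 0 →
        ∃ τ ∈ T, σ = τ.map (g * ·) := by
      intro g s σ h
      have h1 : qc e s.card g s = (qc e s.card 1 s).mapDomain (List.map (g * ·)) := by
        rw [← qc_smul, mul_one]
      rw [h1] at h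
      have h2 := Finsupp.mapDomain_support (Finsupp.mem_support_iff.2 h)
      obtain ⟨τ, hτ, rfl⟩ := mem_image.1 h2
      exact ⟨τ, mem_biUnion.2 ⟨s, mem_univ s, hτ⟩, rfl⟩
    have hfin : (⋃ τ ∈ T, {l : List Λ | ∃ g : A, τ.map (fun a => (f g)⁻¹ * f (g * a)) = l}).Finite :=
      T.finite_toSet.biUnion fun τ _ => fin_shapes hf τ
    obtain ⟨E, hE⟩ := hH.fin hfin.toFinset
    refine ⟨(hf.prop_fin (E := (E : Set Λ)) E.finite_toSet).toFinset, fun g s g' s' _ _ h => ?_⟩
    rw [Set.Finite.mem_toFinset]
    refine ⟨g, ?_⟩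
    rw [mul_inv_cancel_left]
    obtain ⟨σ, σ', h1, h2, h3⟩ := pair_ne F h
    obtain ⟨τ, hτ, rfl⟩ := hT g s σ h1
    obtain ⟨τ', hτ', rfl⟩ := hT g' s' σ' h2
    have key : ∀ (k : A) (t : List A), (t.map (k * ·)).map f =
        (t.map (fun a => (f k)⁻¹ * f (k * a))).map (f k * ·) := by
      intro k t
      rw [List.map_map, List.map_map]
      refine List.map_congr_left fun a _ => ?_
      show f (k * a) = f k * ((f k)⁻¹ * f (k * a))
      rw [mul_inv_cancel_left]
    have h4 : H ((τ.map (fun a => (f g)⁻¹ * f (g * a))).map (f g * ·))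
        ((τ'.map (fun a => (f g')⁻¹ * f (g' * a))).map (f g' * ·)) ≠ 0 := by
      rw [← key, ← key]
      exact h3
    refine hE _ ?_ _ ?_ _ _ h4
    · rw [Set.Finite.mem_toFinset]
      exact Set.mem_biUnion hτ ⟨g, rfl⟩
    · rw [Set.Finite.mem_toFinset]
      exact Set.mem_biUnion hτ' ⟨g', rfl⟩

end

end Pool.Agent.H45.DA
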