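import Pool.Agent.H45.DA.Cel
import Pool.Agent.S10.DuMain
import Pool.Agent.S10.DuGen

/-!
# Duality pairs: intersection numbers of lists of elements of a group

`exists_inter_listD`: a group which acts properly on an acyclic homology manifold or on a duality pair of dimension `n`
has intersection numbers of lists.
-/

set_option autoImplicit false

open Finset Pointwise

namespace Pool.Agent.H45.DA

open Pool.Agent.H37.TM hiding IsPsi al bdl tn_cell
open Pool.Agent.H65.RM hiding IsPsi al HH
open Pool.Agent.H84.RX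
open Pool.Agent.S10 (Dual gen gen_psm gen_pact exists_psiG PsiG ManOrDual)

/-- the lists as cells -/
theorem cells_list (P : Type) [Group P] :
    @Cells P (NL P) _ (actL P) (fun x => x.1.length - 1) bdl := by
  classical
  let _ := actL P
  have hsm : ∀ (p : P) (x : NL P), (p • x).1 = x.1.map (p * ·) := fun p x => rfl
  have hlen : ∀ x : NL P, 0 < x.1.length := fun x => List.length_pos_iff.2 x.2
  have hsub : ∀ (p : P) (m : List P), sub (m.map (p * ·)) = (sub m).mapDomain (p • ·) := by
    intro p m
    by_cases h : m = []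
    · subst h
      rw [List.map_nil, sub_nil, Finsupp.mapDomain_zero]
    · have h' : m.map (p * ·) ≠ [] := fun h' => h (List.map_eq_nil_iff.1 h')
      rw [sub_ne h, sub_ne h', Finsupp.mapDomain_single]
      rfl
  have hbd : ∀ m : List P, lin bdl (sub m) = ∑ j ∈ Finset.range m.length, sub (m.eraseIdx j) := by
    intro m
    by_cases h : m = []
    · subst h
      rw [sub_nil, map_zero, List.length_nil, Finset.range_zero, Finset.sum_empty]
    · rw [lin_sub bdl h]
      rfl
  refine ⟨?_, ?_, ?_, ?_, ?_, ?_⟩
  · rintro p ⟨l, hl⟩ h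
    have h1 : l.map (p * ·) = l := congrArg Subtype.val h
    cases l with
    | nil => exact absurd rfl hl
    | cons a l =>
      rw [List.map_cons] at h1
      exact mul_eq_right.1 (List.cons.inj h1).1
  · intro p x
    change (x.1.map (p * ·)).length - 1 = x.1.length - 1
    rw [List.length_map]
  · intro x y h
    unfold bdl at h
    rw [Finsupp.finsetSum_apply] at h
    obtain ⟨i, hi, hne⟩ := exists_ne_zero_of_sum_ne_zero h
    rw [Finset.mem_range] at hi
    have h1 : x.1.eraseIdx i = y.1 := by
      by_cases h2 : x.1.eraseIdx i = []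
      · rw [h2, sub_nil] at hne
        exact absurd rfl hne
      · rw [sub_ne h2, Finsupp.single_apply] at hne
        by_contra h3
        apply hne
        rw [if_neg]
        intro h4
        exact h3 (congrArg Subtype.val h4)
    have h2 := hlen y
    have h3 : (x.1.eraseIdx i).length = x.1.length - 1 := List.length_eraseIdx_of_lt hi
    rw [h1] at h3
    change y.1.length - 1 + 1 = x.1.length - 1
    omega
  · intro p x
    unfold bdl
    rw [Finsupp.mapDomain_finsetSum, hsm, List.length_map]
    refine Finset.sum_congr rfl fun i _ => ?_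
    rw [List.eraseIdx_map, hsub]
  · intro x
    have h1 : lin bdl (bdl x) = ∑ i ∈ Finset.range x.1.length,
        ∑ j ∈ Finset.range (x.1.length - 1), sub ((x.1.eraseIdx i).eraseIdx j) := by
      conv_lhs => rw [show bdl x = ∑ i ∈ Finset.range x.1.length, sub (x.1.eraseIdx i) from rfl]
      rw [map_sum]
      refine Finset.sum_congr rfl fun i hi => ?_
      rw [hbd, List.length_eraseIdx_of_lt (Finset.mem_range.1 hi)]
    rw [h1, Finset.sum_sigma']
    refine Finset.sum_involution
      (fun p _ => if p.1 ≤ p.2 then ⟨p.2 + 1, p.1⟩ else ⟨p.2, p.1 - 1⟩) ?_ ?_ ?_ ?_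
    · rintro ⟨i, j⟩ h
      by_cases hij : i ≤ j
      · simp only [if_pos hij]
        rw [erase_erase _ _ _ hij]
        exact add_self_mod _
      · simp only [if_neg hij]
        have h2 := erase_erase x.1 j (i - 1) (by omega)
        rw [Nat.sub_add_cancel (by omega : 1 ≤ i)] at h2
        rw [h2]
        exact add_self_mod _
    · rintro ⟨i, j⟩ h _ he
      by_cases hij : i ≤ j
      · simp only [if_pos hij] at he
        have h2 : j + 1 = i := congrArg Sigma.fst he
        omega
      · simp only [if_neg hij] at he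
        have h2 : j = i := congrArg Sigma.fst he
        omega
    · rintro ⟨i, j⟩ h
      rw [Finset.mem_sigma, Finset.mem_range, Finset.mem_range] at h
      have h1 : i < x.1.length := h.1
      have h2 : j < x.1.length - 1 := h.2
      by_cases hij : i ≤ j
      · simp only [if_pos hij]
        rw [Finset.mem_sigma, Finset.mem_range, Finset.mem_range]
        exact ⟨(by omega : j + 1 < x.1.length), (by omega : i < x.1.length - 1)⟩
      · simp only [if_neg hij]
        rw [Finset.mem_sigma, Finset.mem_range, Finset.mem_range]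
        exact ⟨(by omega : j < x.1.length), (by omega : i - 1 < x.1.length - 1)⟩
    · rintro ⟨i, j⟩ h
      by_cases hij : i ≤ j
      · simp only [if_pos hij]
        rw [if_neg (by omega : ¬ j + 1 ≤ i)]
        rfl
      · simp only [if_neg hij]
        rw [if_pos (by omega : j ≤ i - 1), Nat.sub_add_cancel (by omega : 1 ≤ i)]
  · intro x hx
    have h1 : x.1.length = 2 := by
      have h2 := hlen x
      have h3 : x.1.length - 1 = 1 := hx
      omega
    unfold bdl
    rw [map_sum, h1, Finset.sum_range_succ, Finset.sum_range_one, lin_sub, lin_sub]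
    · exact add_self_mod _
    · intro h
      have := congrArg List.length h
      rw [List.length_eraseIdx_of_lt (by omega), h1] at this
      exact absurd this.symm (Nat.zero_ne_one)
    · intro h
      have := congrArg List.length h
      rw [List.length_eraseIdx_of_lt (by omega), h1] at this
      exact absurd this.symm (Nat.zero_ne_one)

/-- intersection numbers of lists from the ones of cells -/
theorem interL_ext {P : Type} [Group P] {n : ℕ} {H : NL P → NL P → ZMod 2}
    (hH : @InterX P (NL P) _ (actL P) (fun x => x.1.length - 1) bdl n H) : InterL P n (ext H) := by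
  classical
  let _ := actL P
  have hlen : ∀ x : NL P, 0 < x.1.length := fun x => List.length_pos_iff.2 x.2
  refine ⟨ext_nil_left H, ext_nil_right H, ?_, ?_, ?_, ?_⟩
  · intro σ τ h1 h2
    have h3 := hH.rel ⟨σ, h1⟩ ⟨τ, h2⟩
    rw [ext_ne H h1 h2, ext_ne H h2 h1, ← h3]
    congr 1
    · change _ = lin _ (∑ i ∈ Finset.range σ.length, sub (σ.eraseIdx i))
      rw [map_sum]
      refine Finset.sum_congr rfl fun i _ => ?_
      by_cases h : σ.eraseIdx i = []
      · rw [h, sub_nil, map_zero, ext_nil_left]
      · rw [lin_sub _ h, ext_ne H h h2]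
    · change _ = lin _ (∑ i ∈ Finset.range τ.length, sub (τ.eraseIdx i))
      rw [map_sum]
      refine Finset.sum_congr rfl fun i _ => ?_
      by_cases h : τ.eraseIdx i = []
      · rw [h, sub_nil, map_zero, ext_nil_right]
      · rw [lin_sub _ h, ext_ne H h1 h]
  · intro σ τ h
    by_cases h1 : σ = []
    · rw [h1, ext_nil_left]
    by_cases h2 : τ = []
    · rw [h2, ext_nil_right]
    rw [ext_ne H h1 h2]
    apply hH.top
    have h3 := hlen ⟨σ, h1⟩
    have h4 := hlen ⟨τ, h2⟩
    change n < (σ.length - 1) + (τ.length - 1)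
    change 0 < σ.length at h3
    change 0 < τ.length at h4
    omega
  · intro g
    rw [ext_ne H (List.cons_ne_nil g []) (List.cons_ne_nil g [])]
    exact hH.one _ rfl
  · intro F
    refine ⟨(F.attach ×ˢ F.attach).biUnion fun z =>
      if h : z.1.1 ≠ [] ∧ z.2.1 ≠ [] then
        (hH.fin ⟨z.1.1, h.1⟩ ⟨z.2.1, h.2⟩).toFinset else ∅, ?_⟩
    intro σ hσ τ hτ p q hne
    by_cases h1 : σ = []
    · rw [h1, List.map_nil, ext_nil_left] at hne
      exact absurd rfl hne
    by_cases h2 : τ = []
    · rw [h2, List.map_nil, ext_nil_right] at hne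
      exact absurd rfl hne
    rw [Finset.mem_biUnion]
    refine ⟨(⟨σ, hσ⟩, ⟨τ, hτ⟩), ?_, ?_⟩
    · exact Finset.mem_product.2 ⟨Finset.mem_attach _ _, Finset.mem_attach _ _⟩
    · rw [dif_pos (show (⟨σ, hσ⟩ : {x // x ∈ F}).1 ≠ [] ∧ (⟨τ, hτ⟩ : {x // x ∈ F}).1 ≠ [] from
        ⟨h1, h2⟩), Set.Finite.mem_toFinset]
      refine ⟨p, ?_⟩
      have h3 : σ.map (p * ·) ≠ [] := fun h => h1 (List.map_eq_nil_iff.1 h)
      have h4 : τ.map (q * ·) ≠ [] := fun h => h2 (List.map_eq_nil_iff.1 h)
      rw [ext_ne H h3 h4] at hne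
      rw [mul_inv_cancel_left]
      exact hne


section

variable {P U : Type} [Group P] [DecidableEq U] [MulAction P U] {K B mu : Set (Finset U)} {n : ℕ}

/-- the complex of pairs is zero above the index `n + 1` -/
theorem tn_high {x : Finset U × Finset U →₀ ZMod 2} (hx : x ∈ TN K B n (n + 2)) : x = 0 := by
  ext e
  by_contra h
  obtain ⟨-, h2, -, -, h5⟩ := tn_cell hx e h
  have h3 := card_le_card h2
  omega

/-- **The chain map for a duality pair**, from abstract cells of all dimensions. -/
theorem exists_psi_cellsD {X : Type} [MulAction P X] {sz : X → ℕ} {bd : X → (X →₀ ZMod 2)}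
    (hX : Cells P sz bd) (hD : Dual K B mu n (n + 1)) (hA : PAct P K B)
    (hmu : ∀ (g : P) (s : Finset U), s ∈ mu → g • s ∈ mu) :
    ∃ Ψ : X → (Finset U × Finset U →₀ ZMod 2), IsPsi P sz bd (gen mu) (B ∩ gen mu) n Ψ := by
  classical
  obtain ⟨Ψ, hΨ⟩ := exists_psiG (Γ := P) (A := X) (fun i => {x | sz x = i ∧ i ≤ n + 1})
    (fun i g a ha => ⟨(hX.sz_smul g a).trans ha.1, ha.2⟩)
    (fun i j a hi hj => hi.1.symm.trans hj.1)
    (fun i a _ g h => hX.free g a h) bd
    (fun i a ha b hb => by
      have h4 := hX.bd_sz a b hb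
      have h5 : sz a = i + 1 := ha.1
      exact ⟨(by omega : sz b = i), by have := ha.2; omega⟩)
    (fun a ha => bd_zero hX ha.1)
    (fun i g a _ => hX.bd_smul g a) (fun i a _ => hX.bd_bd a)
    (fun a => if sz a = 0 then 1 else 0)
    (fun i a ha => by
      rw [if_neg]
      rw [ha.1]
      omega)
    (fun i g a _ => by rw [hX.sz_smul])
    (fun i a _ => by
      rw [lin_supp]
      by_cases h1 : sz a = 1
      · have h4 := hX.aug a h1
        rw [lin_supp] at h4
        rw [← h4]
        refine sum_congr rfl fun b hb => ?_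
        have h6 := hX.bd_sz a b (Finsupp.mem_support_iff.1 hb)
        exact if_pos (by omega)
      · refine sum_eq_zero fun b hb => ?_
        have h6 := hX.bd_sz a b (Finsupp.mem_support_iff.1 hb)
        exact if_neg (by omega))
    hD hA hmu (fun i ⟨a, ha⟩ => ha.2)
  have hz : ∀ y, sz y = n + 1 → Ψ y = 0 := fun y hy => tn_high (hΨ.mem (n + 1) y ⟨hy, le_rfl⟩)
  refine ⟨fun x => if sz x ≤ n + 1 then Ψ x else 0, ⟨fun x => ?_, fun p x => ?_, fun x => ?_⟩⟩
  · split_ifs with h
    · exact hΨ.mem (sz x) x ⟨rfl, h⟩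
    · exact Submodule.zero_mem _
  · rw [hX.sz_smul]
    split_ifs with h
    · exact hΨ.smul p (sz x) x ⟨rfl, h⟩
    · rw [Finsupp.mapDomain_zero]
  · split_ifs with h h0 h0
    · rw [hΨ.bd (sz x) x ⟨rfl, h⟩, if_pos h0, lin_supp, lin_supp]
      congr 1
      refine sum_congr rfl fun b hb => ?_
      have h6 := hX.bd_sz x b (Finsupp.mem_support_iff.1 hb)
      rw [if_pos (by omega)]
    · rw [hΨ.bd (sz x) x ⟨rfl, h⟩, if_neg h0, lin_supp, lin_supp, Finsupp.single_zero]
      congr 1
      refine sum_congr rfl fun b hb => ?_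
      have h6 := hX.bd_sz x b (Finsupp.mem_support_iff.1 hb)
      rw [if_pos (by omega)]
    · omega
    · rw [map_zero, zero_add, lin_supp]
      symm
      refine sum_eq_zero fun b hb => ?_
      have h6 := hX.bd_sz x b (Finsupp.mem_support_iff.1 hb)
      by_cases hb1 : sz b ≤ n + 1
      · rw [if_pos hb1]
        exact hz b (by omega)
      · rw [if_neg hb1]

/-- acyclic in the degrees up to the dimension -/
theorem acyc_of_lt (hM : Mfd K B n) (hK : AcycLt K (n + 1)) : Acyc K := by
  intro f hf h0
  refine hK f (fun s hs => ⟨hf s hs, ?_⟩) h0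
  rcases hf s hs with h | rfl
  · exact hM.card_le s h
  · simp

/-- **Intersection numbers of lists.** -/
theorem exists_inter_listD (hM : ManOrDual P K B n (n + 1)) (hA : PAct P K B) :
    ∃ H : List P → List P → ZMod 2, InterL P n H := by
  rcases hM with ⟨h1, h2⟩ | ⟨mu, hD, hmu⟩
  · exact exists_inter_list h1 (acyc_of_lt h1 h2) hA
  · let _ := actL P
    obtain ⟨Ψ, hΨ⟩ := exists_psi_cellsD (cells_list P) hD hA hmu
    obtain ⟨H, hH⟩ := inter_of_psi (cells_list P) (gen_psm hD) (gen_pact hD hA hmu) hΨ
    exact ⟨_, interL_ext hH⟩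

end

end Pool.Agent.H45.DA
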