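import Pool.Agent.H65.AB.MAB
import Pool.Agent.H45.DA.Cube
import Pool.Agent.H45.DA.Lst

/-!
# Duality pairs: the nerve of the groups `AG M F Γ`
-/

set_option autoImplicit false
set_option linter.unusedSectionVars false

open Finset

namespace Pool.Agent.H45.DA

open Pool.Agent.H65.AB hiding hl_of_cem
open H42.NU Pool.Agent.H4.FC Pool.Agent.H78.RC Pool.Agent.H93.AA Pool.Agent.H65.RA
  Pool.Agent.H65.RM Pool.Agent.H37.TM
open Pool.Agent.H73.LK (sub)
open Pool.Agent.H84.RX (InterL)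
open Pool.Agent.H10.CI (CoarseEmb CoarseEmb.hom CoarseEmb.comp)

variable {S : Type} [Fintype S] [DecidableEq S] {M : CoxeterMatrix S} {F : Finset S}
  {Γ : S → Type} [∀ v, Group (Γ v)] {Λ : Type} [Group Λ]

open Classical in
/-- the elements of the letters in the subgroup `AN` -/
private noncomputable def pN [Fintype (Irr M)] (N : ℕ) (q : ∀ v, Bool → Γ v) (x : Irr M × Bool) :
    AG M F Γ :=
  if x.1 ∈ lF M F then pA M F q x else pA M F q x ^ N

private theorem pN_mem [Fintype (Irr M)] (N : ℕ) (q : ∀ v, Bool → Γ v) (x : Irr M × Bool) :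
    pN N q x ∈ AN M F Γ N := by
  obtain ⟨X, b⟩ := x
  unfold pN
  by_cases hX : X ∈ lF M F
  · rw [if_pos hX]
    obtain ⟨v, hv, rfl⟩ := mem_lF.1 hX
    rw [pA_sing q hv]
    exact Subgroup.subset_closure (Or.inl ⟨v, hv, _, rfl⟩)
  · rw [if_neg hX]
    have h1 : th M F Γ (xg M X) ^ N ∈ AN M F Γ N := Subgroup.subset_closure (Or.inr ⟨X, rfl⟩)
    cases b
    · rw [pA_false q hX, inv_pow]
      exact (AN M F Γ N).inv_mem h1
    · rw [pA_true q hX]
      exact h1

private theorem pN_comm [Fintype (Irr M)] (hM : Mix M F) (N : ℕ) (q : ∀ v, Bool → Γ v)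
    (x y : Irr M × Bool) (h : (oct (nG M)).Adj x y) : Commute (pN (F := F) N q x) (pN N q y) := by
  have h1 : Commute (pA M F q x) (pA M F q y) := pA_comm hM q x y h
  unfold pN
  split_ifs
  · exact h1
  · exact h1.pow_right N
  · exact h1.pow_left N
  · exact h1.pow_pow N N

/-- **The nerves of all full subgroups.** -/
theorem hl_of_cemL (hM : Mix M F) (h3 : ∀ v ∈ F, ∃ x y : Γ v, x ≠ 1 ∧ y ≠ 1 ∧ x ≠ y)
    (hE : CEm M F Γ Λ) {n k : ℕ} {HL' : List Λ → List Λ → ZMod 2} (hL : InterL Λ n HL')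
    (hn : n ≤ 2 * k + 1) (Y : Finset S) :
    HL (sub M Y) (k + 1) := by
  classical
  let fI : Fintype (Irr M) := Fintype.ofFinite _
  obtain ⟨N, hN, f, hf⟩ := hE
  -- the elements of the finite groups
  have hq : ∃ q : ∀ v, Bool → Γ v, (∀ v ∈ F, ∀ b, q v b ≠ 1) ∧ ∀ v ∈ F, q v true ≠ q v false := by
    have h4 : ∀ v, ∃ q : Bool → Γ v, v ∈ F → (∀ b, q b ≠ 1) ∧ q true ≠ q false := by
      intro v
      by_cases hv : v ∈ F
      · obtain ⟨x, y, hx, hy, hxy⟩ := h3 v hv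
        refine ⟨fun b => if b then x else y, fun _ => ⟨fun b => ?_, hxy⟩⟩
        cases b
        · exact hy
        · exact hx
      · exact ⟨fun _ => 1, fun h => absurd h hv⟩
    choose q hq using h4
    exact ⟨q, fun v hv => (hq v hv).1, fun v hv => (hq v hv).2⟩
  obtain ⟨q, hq1, hq2⟩ := hq
  obtain ⟨M', hM'⟩ := Pool.Agent.H65.BU.exists_ra (nG M)
  obtain ⟨pr, g, hg⟩ := Pool.Agent.H65.BU.exists_apts hM' M'.toCoxeterSystem (pA M F q)
    (pA_comm hM q)
  have hsep := sepZ_ab hM hM' hq1 hq2 hg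
  -- the letters
  let Z := lU M Y
  let G' : SimpleGraph {X // X ∈ Z} := (nG M).comap (Subtype.val : {X // X ∈ Z} → Irr M)
  let cs' := (sub M' Z).toCoxeterSystem
  let p1 : {X // X ∈ Z} × Bool → AG M F Γ := fun x => pA M F q (x.1.1, x.2)
  have hp1 : ∀ x y, (oct G').Adj x y → p1 x * p1 y = p1 y * p1 x := fun x y h =>
    pA_comm hM q (x.1.1, x.2) (y.1.1, y.2) h
  obtain ⟨pr1, g1, hg1⟩ := Pool.Agent.H65.BU.exists_apts (ra_sub hM' Z) cs' p1 hp1
  have hsep1 := sepZ_sub hM' Z (lF M F) hg hg1 hsep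
  -- the subgroup
  let p' : {X // X ∈ Z} × Bool → AN M F Γ N := fun x => ⟨pN N q (x.1.1, x.2), pN_mem N q _⟩
  have hp' : ∀ x y, (oct G').Adj x y → p' x * p' y = p' y * p' x := fun x y h =>
    Subtype.ext (pN_comm hM N q (x.1.1, x.2) (y.1.1, y.2) h).eq
  obtain ⟨H, hH⟩ := inter_of_interL (oct G') p' hp' hL hf
  refine hl_of_hz_lU Y (hz_of_interZ (ra_sub hM' Z) cs' (rF (lF M F) Z) p' hp'
    (fun pr' g' hg' => ?_) hH hn)
  refine sepZ_pow (ra_sub hM' Z) hN (AN M F Γ N).subtype (fun x hx => ?_) (fun x hx => ?_) hg1 hg'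
    hsep1
  · show pN N q (x.1.1, x.2) = _
    unfold pN
    rw [if_pos (mem_rF.1 hx)]
  · show pN N q (x.1.1, x.2) = _
    unfold pN
    rw [if_neg fun h => hx (mem_rF.2 h)]

end Pool.Agent.H45.DA
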