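import Pool.Agent.H4.BD.All
import Pool.Agent.H45.DA.Lst

/-!
# Duality pairs: buildings
-/

set_option autoImplicit false

open Finset

namespace Pool.Agent.H45.DA

open Pool.Agent.H4.BD Pool.Agent.H4.FC Pool.Agent.H78.RC Pool.Agent.H97.BLD Pool.Agent.H84.RX

/-- **Group actions on buildings**: let the building of type `M` be thick and locally finite, such that for every
letter all panels have an even number of chambers or the letter is right-angled. If a group acts on it with finite
stabilizers and finitely many orbits of chambers, and embeds coarsely into a group with intersection numbers of lists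
in dimension `n`, then the `ℓ²`-homology of the Davis realization of the building vanishes above the degree `n / 2`. -/
theorem bld_singerL {S : Type} [Fintype S] [DecidableEq S] (M : CoxeterMatrix S) (Δ : Type)
    (δ : Δ → Δ → M.Group) (P Λ : Type) [Group P] [MulAction P Δ] [Group Λ] (n : ℕ) (hδ : IsBuilding M δ)
    (hfin : ∀ s c, {d | δ c d = M.simple s}.Finite)
    (hth : ∀ s c, 2 ≤ {d | δ c d = M.simple s}.ncard)
    (hpar : ∀ s, (∀ c, Odd {d | δ c d = M.simple s}.ncard) ∨
      ∀ t, t ≠ s → M s t = 2 ∨ M s t = 0) (hP : GAct P M δ)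
    (f : P → Λ) (hf : Pool.Agent.H10.CI.CoarseEmb f)
    {H : List Λ → List Λ → ZMod 2} (hH : InterL Λ n H) (i : ℕ) (hi : n < 2 * i) :
    L2ZeroB M δ i := by
  classical
  rcases isEmpty_or_nonempty Δ with hΔ | hΔ
  · exact l2zeroB_of_empty M δ i
  have hq : Reg M δ (fun s c => {d | δ c d = M.simple s}.ncard) := fun s c => ⟨hfin s c, rfl⟩
  obtain ⟨m, hm⟩ := Pool.Agent.H8.BD.exists_panel_bound hP hfin
  refine Pool.Agent.H8.BD.l2zeroB_of_ex hδ hfin hm i fun ν hν j hj U' => ?_
  obtain ⟨rr, hrr⟩ := exists_rr hδ hq hP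
  obtain ⟨k, rfl⟩ : ∃ k, j = k + 1 := ⟨j - 1, by omega⟩
  exact ex_of_sub U' (hl_all hδ hq hth hpar (hrr.comp hf) hH (by omega) U') hν

end Pool.Agent.H45.DA
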