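import Pool.Agent.H37.TM.Psm
import Mathlib.Combinatorics.SimpleGraph.Connectivity.WalkCounting

/-!
# Duality pairs: a function which is injective on the simplices

Every component of a locally finite complex has countably many vertices.
-/

set_option autoImplicit false

open Finset

namespace Pool.Agent.H45.DA

open Pool.Agent.H37.TM

/-- the set of the ends of the walks of length `k` is finite in a locally finite graph -/
theorem finite_walks {U : Type} (G : SimpleGraph U) (hG : ∀ u, {w | G.Adj u w}.Finite) (k : ℕ) :
    ∀ u, {v | ∃ p : G.Walk u v, p.length = k}.Finite := by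
  induction k with
  | zero =>
    intro u
    refine (Set.finite_singleton u).subset ?_
    rintro v ⟨p, hp⟩
    exact (SimpleGraph.Walk.eq_of_length_eq_zero hp).symm
  | succ k ih =>
    intro u
    refine ((hG u).biUnion fun w _ => ih w).subset ?_
    rintro v ⟨p, hp⟩
    cases p with
    | nil => simp at hp
    | cons h q =>
      rw [SimpleGraph.Walk.length_cons] at hp
      exact Set.mem_biUnion h ⟨q, by omega⟩

theorem exists_heightP {U : Type} [DecidableEq U] {K B : Set (Finset U)} {n : ℕ} (hM : Psm K B n) :
    ∃ ht : U → ℕ, ∀ s ∈ K, Set.InjOn ht (s : Set U) := by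
  classical
  let G : SimpleGraph U :=
    { Adj := fun a b => a ≠ b ∧ ({a, b} : Finset U) ∈ K
      symm := ⟨fun a b h => ⟨h.1.symm, by rw [Finset.pair_comm]; exact h.2⟩⟩
      loopless := ⟨fun a h => h.1 rfl⟩ }
  have hG : ∀ u, {w | G.Adj u w}.Finite := by
    intro v
    by_cases hv : ({v} : Finset U) ∈ K
    · have hF := hM.locfin _ hv
      refine (hF.biUnion (t := fun t : Finset U => (t : Set U))
        (fun t _ => t.finite_toSet)).subset ?_
      intro w hw
      simp only [Set.mem_iUnion]
      exact ⟨{v, w}, ⟨hw.2, by simp⟩, by simp⟩
    · refine Set.Finite.subset Set.finite_empty ?_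
      intro w hw
      exact hv (hM.down _ hw.2 _ (by simp) (Finset.singleton_nonempty v))
  have hc : ∀ u, {v | G.Reachable u v}.Countable := by
    intro u
    refine (Set.countable_iUnion fun k => (finite_walks G hG k u).countable).mono ?_
    rintro v ⟨p⟩
    exact Set.mem_iUnion.2 ⟨p.length, p, rfl⟩
  have he : ∀ c : G.ConnectedComponent, ∃ e : U → ℕ, Set.InjOn e {v | G.connectedComponentMk v = c} := by
    intro c
    induction c using SimpleGraph.ConnectedComponent.ind with
    | h u =>
      have h1 : {v | G.connectedComponentMk v = G.connectedComponentMk u} ⊆ {v | G.Reachable u v} := by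
        intro v hv
        exact (SimpleGraph.ConnectedComponent.exact hv).symm
      exact Set.countable_iff_exists_injOn.mp ((hc u).mono h1)
  choose e he using he
  refine ⟨fun u => e (G.connectedComponentMk u) u, fun s hs a ha b hb hab => ?_⟩
  by_contra hne
  have h1 : ({a, b} : Finset U) ∈ K := by
    refine hM.down s hs _ ?_ (by simp)
    intro x hx
    rw [Finset.mem_insert, Finset.mem_singleton] at hx
    rcases hx with rfl | rfl
    · exact ha
    · exact hb
  have h2 : G.Adj a b := ⟨hne, h1⟩
  have h3 : G.connectedComponentMk b = G.connectedComponentMk a :=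
    SimpleGraph.ConnectedComponent.sound h2.symm.reachable
  dsimp only at hab
  rw [h3] at hab
  exact hne (he _ rfl h3 hab)

end Pool.Agent.H45.DA
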