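import Pool.Agent.H45.DA.Stokes
import Pool.Agent.H45.DA.Height
import Pool.Agent.H37.TM.StarB0
import Pool.Agent.H84.RX.Lst

/-!
# Duality pairs: intersection numbers of abstract cells, for pseudomanifolds

The proofs of `H84/RX/Al` and `H84/RX/Int` use only that `K` is a pseudomanifold with boundary `B` and the
equivariant chain map from the cells to the complex of pairs.
-/

set_option autoImplicit false
set_option linter.unusedSectionVars false

open Finset Pointwise

namespace Pool.Agent.H45.DA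

open Pool.Agent.H37.TM hiding al IsPsi
open Pool.Agent.H65.RM hiding IsPsi al al_supp cob_al sum_al al_smul al_empty al_fin cI_zero fin_up fin_cup fin_cup' rel_aux HH HH_rel HH_one HH_fin inter_of_psi
open Pool.Agent.H84.RX hiding cob_al sum_al fin_up fin_cup rel_aux HH_rel HH_one HH_fin

variable {P X U : Type} [Group P] [MulAction P X] [DecidableEq U] [MulAction P U]
  {sz : X → ℕ} {bd : X → (X →₀ ZMod 2)} {K B : Set (Finset U)} {n : ℕ}
  {Ψ : X → (Finset U × Finset U →₀ ZMod 2)} {ht : U → ℕ}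

/-- the coboundary of the cochain of a cell is the sum of the cochains of its faces -/
theorem cob_al (hM : Psm K B n) (hΨ : IsPsi P sz bd K B n Ψ) {x : X}
    {t : Finset U} (ht : t ∈ K ∨ t = ∅) :
    cob (al Ψ x) t = ∑ x' ∈ (bd x).support, al Ψ x' t := by
  classical
  rcases ht with ht | rfl
  · have h1 : Pool.Agent.H37.TM.al (bdT K n (Ψ x)) t = cob (al Ψ x) t := al_bdT hM (hΨ.mem x) ht
    have h2 : Pool.Agent.H37.TM.al
        (if sz x = 0 then Finsupp.single ((∅ : Finset U), (∅ : Finset U)) (1 : ZMod 2) else 0) t = 0 := by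
      unfold Pool.Agent.H37.TM.al
      refine sum_eq_zero fun v _ => ?_
      split_ifs
      · rw [Finsupp.single_apply, if_neg]
        intro h
        exact (singleton_ne_empty v) (congrArg Prod.fst h).symm
      · rfl
    rw [← h1, hΨ.bd x, al_add', h2, zero_add, lin_supp, al_sum']
    rfl
  · unfold cob
    rw [sum_empty]
    symm
    refine sum_eq_zero fun w _ => ?_
    rw [al_empty]

/-- the augmentation -/
theorem sum_al (hM : Psm K B n) (hX : Cells P sz bd) (hΨ : IsPsi P sz bd K B n Ψ) {x : X}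
    (hx : sz x = 0) : ∑ᶠ t, al Ψ x t = 1 := by
  classical
  have hmem := hΨ.mem x
  rw [hx, zero_add] at hmem
  -- the cells of index one
  have h1 : ∀ c ∈ (Ψ x).support, bdE K n c (∅, ∅) = 1 ∧ ∃ v ∈ c.2, c.1 = {v} := by
    intro c hc
    obtain ⟨h2, h3, h4, h5, h6⟩ := (Finsupp.mem_supported _ _).1 hmem (mem_coe.2 hc)
    have h6' : c.1.card + n = c.2.card + 0 := h6
    have h7 := hM.card_le _ h4
    have h8 := card_pos.2 h2
    have h9 : c.1.card = 1 := by omega
    have h10 : c.2.card = n + 1 := by omega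
    refine ⟨?_, ?_⟩
    · unfold bdE
      rw [if_neg h2.ne_empty, if_pos h9, if_pos h10, Finsupp.add_apply, Finsupp.single_apply,
        if_pos rfl, Finsupp.finsetSum_apply, sum_eq_zero, add_zero]
      intro t _
      rw [Finsupp.single_apply, if_neg]
      intro h
      exact h2.ne_empty (congrArg Prod.fst h)
    · obtain ⟨v, hv⟩ := card_eq_one.1 h9
      refine ⟨v, h3 ?_, hv⟩
      rw [hv]
      exact mem_singleton_self v
  have h2 : bdT K n (Ψ x) (∅, ∅) = ∑ c ∈ (Ψ x).support, Ψ x c := by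
    unfold bdT
    rw [Finsupp.linearCombination_apply, Finsupp.sum, Finsupp.finsetSum_apply]
    refine sum_congr rfl fun c hc => ?_
    rw [Finsupp.smul_apply, (h1 c hc).1, smul_eq_mul, mul_one]
  have h3 : bdT K n (Ψ x) (∅, ∅) = 1 := by
    rw [hΨ.bd x, if_pos hx, bd_zero hX hx, map_zero, add_zero, Finsupp.single_apply, if_pos rfl]
  rw [finsum_eq_sum_of_support_subset (s := (Ψ x).support.image Prod.snd) _ (by
    intro t ht
    obtain ⟨v, _, hne⟩ := exists_ne_zero_of_sum_ne_zero ht
    exact mem_coe.2 (mem_image.2 ⟨({v}, t), Finsupp.mem_support_iff.2 hne, rfl⟩)), ← h3, h2,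
    ← sum_fiberwise_of_maps_to (s := (Ψ x).support)
      (t := (Ψ x).support.image Prod.snd) (g := Prod.snd)
      (fun c hc => mem_image_of_mem _ hc)]
  refine sum_congr rfl fun t _ => ?_
  unfold al
  symm
  rw [← sum_subset (s₁ := (t.filter fun v => Ψ x ({v}, t) ≠ 0)) (filter_subset _ _)
    (fun v hv hv' => by
      by_contra h
      exact hv' (mem_filter.2 ⟨hv, h⟩))]
  refine sum_bij' (fun c hc => (h1 c (mem_filter.1 hc).1).2.choose) (fun v _ => ({v}, t))
    ?_ ?_ ?_ ?_ ?_
  · intro c hc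
    have h4 := (h1 c (mem_filter.1 hc).1).2.choose_spec
    have h5 := (mem_filter.1 hc).2
    have h6 : c = ({(h1 c (mem_filter.1 hc).1).2.choose}, t) := Prod.ext h4.2 h5
    refine mem_filter.2 ⟨h5 ▸ h4.1, ?_⟩
    rw [← h6]
    exact Finsupp.mem_support_iff.1 (mem_filter.1 hc).1
  · intro v hv
    rw [mem_filter] at hv
    exact mem_filter.2 ⟨Finsupp.mem_support_iff.2 hv.2, rfl⟩
  · intro c hc
    have h4 := (h1 c (mem_filter.1 hc).1).2.choose_spec
    exact (Prod.ext h4.2 (mem_filter.1 hc).2).symm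
  · intro v hv
    rw [mem_filter] at hv
    have h4 := (h1 ({v}, t) (Finsupp.mem_support_iff.2 hv.2)).2.choose_spec
    exact (singleton_injective h4.2).symm
  · intro c hc
    have h4 := (h1 c (mem_filter.1 hc).1).2.choose_spec
    congr 1
    exact Prod.ext h4.2 (mem_filter.1 hc).2

/-- the simplices which contain a simplex in the support of the cochain of a cell -/
theorem fin_up (hM : Psm K B n) (hΨ : IsPsi P sz bd K B n Ψ) (x : X) :
    {t | t ∈ K ∧ ∃ f ⊆ t, al Ψ x f ≠ 0}.Finite := by
  have h1 : {t | t ∈ K ∧ ∃ f ⊆ t, al Ψ x f ≠ 0} =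
      ⋃ f ∈ {f | al Ψ x f ≠ 0}, {t | t ∈ K ∧ f ⊆ t} := by
    ext t
    simp only [Set.mem_ofPred_eq, Set.mem_iUnion, exists_prop]
    constructor
    · rintro ⟨h2, f, h3, h4⟩
      exact ⟨f, h4, h2, h3⟩
    · rintro ⟨f, h4, h2, h3⟩
      exact ⟨h2, f, h3, h4⟩
  rw [h1]
  exact (al_fin x).biUnion fun f hf => hM.locfin f (al_supp hΨ hf).1

/-- the summation of a finite sum -/
theorem fin_cup (hM : Psm K B n) (hΨ : IsPsi P sz bd K B n Ψ) (x y : X) (j : ℕ) :
    (Function.support fun t => open Classical in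
      if Top K B n t then cup ht j (al Ψ x) (al Ψ y) t else 0).Finite := by
  classical
  refine (fin_up hM hΨ x).subset fun t h => ?_
  rw [Function.mem_support] at h
  by_cases h1 : Top K B n t
  · rw [if_pos h1] at h
    obtain ⟨f, hf, f', _, h2, _⟩ := cup_ne h
    exact ⟨h1.1, f, hf, h2⟩
  · exact absurd (if_neg h1) h

/-- the relation for the sums of cup products -/
theorem rel_aux (hM : Psm K B n) (hinj : ∀ s ∈ K, Set.InjOn ht (s : Set U))
    (hΨ : IsPsi P sz bd K B n Ψ) (a b : X) :
    ∑ x' ∈ (bd a).support, cI K B n ht (n + 1 - (sz a + sz b) + 1) (al Ψ x') (al Ψ b) +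
      ∑ y' ∈ (bd b).support, cI K B n ht (n + 1 - (sz a + sz b) + 1) (al Ψ a) (al Ψ y') +
      (cI K B n ht (n + 1 - (sz a + sz b)) (al Ψ a) (al Ψ b) +
        cI K B n ht (n + 1 - (sz a + sz b)) (al Ψ b) (al Ψ a)) = 0 := by
  classical
  obtain ⟨m, hm⟩ : ∃ m, n + 1 - (sz a + sz b) = m := ⟨_, rfl⟩
  rw [hm]
  set x := al Ψ a with hx
  set y := al Ψ b with hy
  -- the cochain `ω`
  let ω : Finset U → ZMod 2 := fun r => if r ∈ K ∧ r.card = n then cup ht (m + 1) x y r else 0
  have hω1 : ∀ r, ω r ≠ 0 → r ∈ K ∧ r.card = n ∧ cup ht (m + 1) x y r ≠ 0 := by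
    intro r hr
    by_cases h : r ∈ K ∧ r.card = n
    · refine ⟨h.1, h.2, ?_⟩
      rwa [show ω r = cup ht (m + 1) x y r from if_pos h] at hr
    · exact absurd (if_neg h) hr
  have hω : ∀ r, ω r ≠ 0 → r ∈ K ∧ r ∉ B ∧ r.card = n := by
    intro r hr
    obtain ⟨h1, h2, h3⟩ := hω1 r hr
    refine ⟨h1, fun h4 => ?_, h2⟩
    obtain ⟨f, hf, f', hf', h5, h6⟩ := cup_ne h3
    have h7 := al_supp hΨ h5
    exact h7.2.1 (hM.bd_down r h4 f hf (hM.ne f h7.1))
  have hfin : {r | ω r ≠ 0}.Finite := by
    refine (fin_up hM hΨ a).subset fun r hr => ?_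
    obtain ⟨h1, h2, h3⟩ := hω1 r hr
    obtain ⟨f, hf, f', hf', h5, h6⟩ := cup_ne h3
    exact ⟨h1, f, hf, h5⟩
  have h1 := stokesP hM ω hfin hω
  -- the value on a top simplex
  have h2 : ∀ t, Top K B n t → cob ω t =
      ∑ x' ∈ (bd a).support, cup ht (m + 1) (al Ψ x') y t +
      ∑ y' ∈ (bd b).support, cup ht (m + 1) x (al Ψ y') t +
      (cup ht m x y t + cup ht m y x t) := by
    intro t htT
    have h3 : cob ω t = cob (cup ht (m + 1) x y) t := by
      unfold cob
      refine sum_congr rfl fun v hv => ?_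
      by_cases h4 : (t.erase v).Nonempty
      · have h5 : t.erase v ∈ K := hM.down t htT.1 _ (erase_subset v t) h4
        have h6 : (t.erase v).card = n := by
          rw [card_erase_of_mem hv, htT.2.2]
          rfl
        exact if_pos ⟨h5, h6⟩
      · rw [not_nonempty_iff_eq_empty] at h4
        rw [h4]
        have h5 : ω ∅ = 0 := by
          refine if_neg fun h => ?_
          exact absurd (hM.ne ∅ h.1) Finset.not_nonempty_empty
        rw [h5]
        symm
        refine cup_zero_l fun f hf => ?_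
        rw [subset_empty.1 hf]
        exact al_empty _
    have hK' : ∀ f ⊆ t, f ∈ K ∨ f = ∅ := by
      intro f hf
      rcases f.eq_empty_or_nonempty with h | h
      · exact Or.inr h
      · exact Or.inl (hM.down t htT.1 f hf h)
    rw [h3, cob_cup ht m x y t (hinj t htT.1)]
    congr 1
    congr 1
    · rw [cup_congr (ht := ht) (fun f hf => cob_al hM hΨ (hK' f hf)) (fun f _ => rfl),
        cup_sum_l]
    · rw [cup_congr (ht := ht) (fun f _ => rfl) (fun f hf => cob_al hM hΨ (hK' f hf)),
        cup_sum_r]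
  -- the sum over the top simplices
  have h3 : ∀ t, (if Top K B n t then cob ω t else 0) =
      ∑ x' ∈ (bd a).support, (if Top K B n t then cup ht (m + 1) (al Ψ x') y t else 0) +
      ∑ y' ∈ (bd b).support, (if Top K B n t then cup ht (m + 1) x (al Ψ y') t else 0) +
      ((if Top K B n t then cup ht m x y t else 0) +
        (if Top K B n t then cup ht m y x t else 0)) := by
    intro t
    by_cases h : Top K B n t
    · simp only [if_pos h]
      exact h2 t h
    · simp only [if_neg h, add_zero, sum_const_zero]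
  rw [finsum_congr h3] at h1
  have f1 : ∀ x' : X, (Function.support fun t =>
      if Top K B n t then cup ht (m + 1) (al Ψ x') y t else 0).Finite := fun x' =>
    fin_cup (ht := ht) hM hΨ x' b (m + 1)
  have f3 : ∀ y' : X, (Function.support fun t =>
      if Top K B n t then cup ht (m + 1) x (al Ψ y') t else 0).Finite := fun y' =>
    fin_cup (ht := ht) hM hΨ a y' (m + 1)
  have f5 : (Function.support fun t => if Top K B n t then cup ht m x y t else 0).Finite :=
    fin_cup (ht := ht) hM hΨ a b m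
  have f6 : (Function.support fun t => if Top K B n t then cup ht m y x t else 0).Finite :=
    fin_cup (ht := ht) hM hΨ b a m
  have g3 : (Function.support fun t => ∑ x' ∈ (bd a).support,
      (if Top K B n t then cup ht (m + 1) (al Ψ x') y t else 0)).Finite := by
    refine Set.Finite.subset (Set.Finite.biUnion (bd a).support.finite_toSet
      fun w _ => f1 w) fun t h => ?_
    obtain ⟨w, hw, hne⟩ := exists_ne_zero_of_sum_ne_zero h
    exact Set.mem_biUnion hw hne
  have g4 : (Function.support fun t => ∑ y' ∈ (bd b).support,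
      (if Top K B n t then cup ht (m + 1) x (al Ψ y') t else 0)).Finite := by
    refine Set.Finite.subset (Set.Finite.biUnion (bd b).support.finite_toSet
      fun w _ => f3 w) fun t h => ?_
    obtain ⟨w, hw, hne⟩ := exists_ne_zero_of_sum_ne_zero h
    exact Set.mem_biUnion hw hne
  have g5 : (Function.support fun t => ∑ x' ∈ (bd a).support,
      (if Top K B n t then cup ht (m + 1) (al Ψ x') y t else 0) +
      ∑ y' ∈ (bd b).support,
        (if Top K B n t then cup ht (m + 1) x (al Ψ y') t else 0)).Finite :=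
    (g3.union g4).subset (Function.support_add _ _)
  have g6 : (Function.support fun t => (if Top K B n t then cup ht m x y t else 0) +
        (if Top K B n t then cup ht m y x t else 0)).Finite :=
    (f5.union f6).subset (Function.support_add _ _)
  rw [finsum_add_distrib g5 g6, finsum_add_distrib g3 g4, finsum_add_distrib f5 f6,
    finsum_sum_comm _ _ fun w _ => f1 w, finsum_sum_comm _ _ fun w _ => f3 w] at h1
  rw [← h1]
  rfl

/-- the relation -/
theorem HH_rel (hM : Psm K B n) (hinj : ∀ s ∈ K, Set.InjOn ht (s : Set U))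
    (hX : Cells P sz bd) (hΨ : IsPsi P sz bd K B n Ψ) (x y : X) :
    lin (fun x' => HH K B n ht sz Ψ x' y) (bd x) + lin (fun y' => HH K B n ht sz Ψ x y') (bd y) =
      HH K B n ht sz Ψ x y + HH K B n ht sz Ψ y x := by
  have key : ∀ a b : ZMod 2, a + b = 0 → a = b := by decide
  have hs : ∀ z, ∀ z' ∈ (bd z).support, sz z' + 1 = sz z := fun z z' hz' =>
    hX.bd_sz z z' (Finsupp.mem_support_iff.1 hz')
  rw [lin_supp, lin_supp]
  by_cases hc : sz x + sz y ≤ n + 1
  · have h1 := rel_aux (ht := ht) hM hinj hΨ x y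
    apply key
    rw [← h1]
    congr 1
    · congr 1
      · refine sum_congr rfl fun w hw => ?_
        have h2 := hs x w hw
        have h3 : n + 1 - (sz w + sz y) = n + 1 - (sz x + sz y) + 1 := by omega
        unfold HH
        rw [if_pos (by omega), h3]
      · refine sum_congr rfl fun w hw => ?_
        have h2 := hs y w hw
        have h3 : n + 1 - (sz x + sz w) = n + 1 - (sz x + sz y) + 1 := by omega
        unfold HH
        rw [if_pos (by omega), h3]
    · have h4 : sz y + sz x = sz x + sz y := add_comm _ _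
      unfold HH
      rw [h4]
      by_cases h2 : sz x + sz y ≤ n
      · rw [if_pos h2, if_pos h2]
      · have h3 : n + 1 - (sz x + sz y) = 0 := by omega
        rw [if_neg h2, if_neg h2, h3, cI_zero, cI_zero]
  · unfold HH
    rw [sum_eq_zero, sum_eq_zero, if_neg (by omega), if_neg (by omega)]
    · intro w hw
      have h2 := hs y w hw
      rw [if_neg (by omega)]
    · intro w hw
      have h2 := hs x w hw
      rw [if_neg (by omega)]

/-- the self-intersection of a vertex -/
theorem HH_one (hM : Psm K B n) (hX : Cells P sz bd) (hΨ : IsPsi P sz bd K B n Ψ) {x : X}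
    (hx : sz x = 0) : HH K B n ht sz Ψ x x = 1 := by
  classical
  unfold HH cI
  rw [hx, add_zero, if_pos (Nat.zero_le n), Nat.sub_zero, ← sum_al hM hX hΨ hx]
  refine finsum_congr fun t => ?_
  by_cases h : Top K B n t
  · rw [if_pos h]
    unfold cup
    rw [← h.2.2, powersetCard_self, sum_singleton]
    have h1 : face1 ht t t = t := filter_true_of_mem fun v hv => Or.inl hv
    have h2 : face2 ht t t = t := filter_true_of_mem fun v hv => Or.inl hv
    rw [h1, h2]
    have h3 : ∀ a : ZMod 2, a * a = a := by decide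
    exact h3 _
  · rw [if_neg h]
    symm
    by_contra hne
    obtain ⟨h1, h2, h3⟩ := al_supp hΨ hne
    rw [hx, add_zero] at h3
    exact h ⟨h1, h2, h3⟩

/-- only finitely many relative positions of two cells have nonzero intersection numbers -/
theorem HH_fin (hM : Psm K B n) (hΨ : IsPsi P sz bd K B n Ψ) (hA : PAct P K B) (x y : X) :
    {p : P | ∃ q : P, HH K B n ht sz Ψ (q • x) ((q * p) • y) ≠ 0}.Finite := by
  classical
  -- the vertices of the simplices in the support of the cochain of a cell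
  have h1 : ∀ z : X, {u | ∃ f, al Ψ z f ≠ 0 ∧ u ∈ f}.Finite := by
    intro z
    have h2 : {u | ∃ f, al Ψ z f ≠ 0 ∧ u ∈ f} ⊆
        ⋃ f ∈ {f | al Ψ z f ≠ 0}, ((f : Finset U) : Set U) := by
      rintro u ⟨f, hf, hu⟩
      exact Set.mem_biUnion hf hu
    exact Set.Finite.subset ((al_fin z).biUnion fun f _ => f.finite_toSet) h2
  have h5 : ∀ z : X, ∀ u ∈ {u | ∃ f, al Ψ z f ≠ 0 ∧ u ∈ f}, ({u} : Finset U) ∈ K := by
    rintro z u ⟨f, hf, hu⟩
    exact hM.down f (al_supp hΨ hf).1 _ (singleton_subset_iff.2 hu) (singleton_nonempty u)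
  have h3 : {h : P | ∃ u u' : U, (∃ f, al Ψ x f ≠ 0 ∧ u ∈ f) ∧ (∃ f, al Ψ y f ≠ 0 ∧ u' ∈ f) ∧
      ∃ t ∈ K, u ∈ t ∧ h • u' ∈ t}.Finite := by
    have h4 : ∀ u ∈ {u | ∃ f, al Ψ x f ≠ 0 ∧ u ∈ f}, {w | ∃ t ∈ K, u ∈ t ∧ w ∈ t}.Finite := by
      intro u hu
      have h6 := h5 x u hu
      have h7 : {w | ∃ t ∈ K, u ∈ t ∧ w ∈ t} ⊆
          ⋃ t ∈ {t | t ∈ K ∧ {u} ⊆ t}, ((t : Finset U) : Set U) := by
        rintro w ⟨t, ht1, ht2, ht3⟩
        exact Set.mem_biUnion (show t ∈ {t | t ∈ K ∧ {u} ⊆ t} from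
          ⟨ht1, singleton_subset_iff.2 ht2⟩) ht3
      exact ((hM.locfin _ h6).biUnion fun t _ => t.finite_toSet).subset h7
    refine Set.Finite.subset ((h1 x).biUnion fun u hu => (h1 y).biUnion fun u' hu' =>
      (h4 u hu).biUnion fun w _ => hA.proper u' w (h5 y u' hu')) ?_
    rintro h ⟨u, u', hu, hu', t, ht1, ht2, ht3⟩
    exact Set.mem_biUnion hu (Set.mem_biUnion hu' (Set.mem_biUnion
      (show h • u' ∈ {w | ∃ t ∈ K, u ∈ t ∧ w ∈ t} from ⟨t, ht1, ht2, ht3⟩) rfl))
  refine h3.subset ?_
  rintro p ⟨q, hne⟩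
  unfold HH at hne
  split_ifs at hne with hc
  · -- a top simplex with a nonzero cup product
    have h5 : ∃ t, (if Top K B n t then cup ht (n + 1 - (sz (q • x) + sz ((q * p) • y)))
        (al Ψ (q • x)) (al Ψ ((q * p) • y)) t else 0) ≠ 0 := by
      by_contra hcon
      push Not at hcon
      apply hne
      unfold cI
      rw [finsum_congr hcon, finsum_zero]
    obtain ⟨t, htne⟩ := h5
    by_cases hT : Top K B n t
    · rw [if_pos hT] at htne
      obtain ⟨f, hf, f', hf', h6, h7⟩ := cup_ne htne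
      have e1 : al Ψ (q • x) f = al Ψ x (q⁻¹ • f) := by
        have := al_smul hΨ q x (q⁻¹ • f)
        rwa [smul_inv_smul] at this
      have e2 : al Ψ ((q * p) • y) f' = al Ψ y ((q * p)⁻¹ • f') := by
        have := al_smul hΨ (q * p) y ((q * p)⁻¹ • f')
        rwa [smul_inv_smul] at this
      obtain ⟨u, hu⟩ := hM.ne f (al_supp hΨ h6).1
      obtain ⟨u', hu'⟩ := hM.ne f' (al_supp hΨ h7).1
      rw [e1] at h6
      rw [e2] at h7
      refine ⟨q⁻¹ • u, (q * p)⁻¹ • u', ⟨_, h6, smul_mem_smul_finset hu⟩,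
        ⟨_, h7, smul_mem_smul_finset hu'⟩, q⁻¹ • t, hA.K_mem q⁻¹ t hT.1,
        smul_mem_smul_finset (hf hu), ?_⟩
      rw [← mul_smul, mul_inv_rev, mul_inv_cancel_left]
      exact smul_mem_smul_finset (hf' hu')
    · exact absurd (if_neg hT) htne
  · exact absurd rfl hne

/-- **Intersection numbers of abstract cells.** -/
theorem inter_of_psi (hX : Cells P sz bd) (hM : Psm K B n) (hA : PAct P K B)
    (hΨ : IsPsi P sz bd K B n Ψ) : ∃ H : X → X → ZMod 2, InterX P sz bd n H := by
  obtain ⟨ht, hinj⟩ := exists_heightP hM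
  exact ⟨HH K B n ht sz Ψ, HH_rel hM hinj hX hΨ,
    fun x y h => by
      unfold HH
      rw [if_neg (by omega)],
    fun x hx => HH_one hM hX hΨ hx, HH_fin hM hΨ hA⟩

end Pool.Agent.H45.DA
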