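import Pool.Agent.H37.TM.Psm
import Pool.Agent.H65.RM.Stokes

/-!
# Duality pairs: sums of coboundaries over the top simplices of a pseudomanifold
-/

set_option autoImplicit false
set_option linter.unusedSectionVars false

open Finset

namespace Pool.Agent.H45.DA

open Pool.Agent.H37.TM Pool.Agent.H65.RM

variable {U : Type} [DecidableEq U] {K B : Set (Finset U)} {n : ℕ}

open Classical in
/-- the sum of a coboundary over the top simplices -/
theorem stokesP (hM : Psm K B n) (ω : Finset U → ZMod 2) (hfin : {r | ω r ≠ 0}.Finite)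
    (hω : ∀ r, ω r ≠ 0 → r ∈ K ∧ r ∉ B ∧ r.card = n) :
    ∑ᶠ t, (if Top K B n t then cob ω t else 0) = 0 := by
  classical
  let R := hfin.toFinset
  have hR : ∀ r, r ∈ R ↔ ω r ≠ 0 := fun r => hfin.mem_toFinset
  let T := R.biUnion fun r => cofs K r (n + 1)
  have h1 : ∀ t, Top K B n t → cob ω t = ∑ r ∈ R, if r ⊆ t then ω r else 0 := by
    intro t ht
    have h2 : ∑ r ∈ R, (if r ⊆ t then ω r else 0) =
        ∑ r ∈ t.image (fun v => t.erase v), if r ∈ R then ω r else 0 := by
      rw [← sum_filter, ← sum_filter]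
      refine sum_congr ?_ fun _ _ => rfl
      ext r
      rw [mem_filter, mem_filter, mem_image]
      constructor
      · rintro ⟨h3, h4⟩
        refine ⟨?_, h3⟩
        have h5 := (hω r ((hR r).1 h3)).2.2
        have h6 : (t \ r).card = 1 := by
          rw [card_sdiff_of_subset h4, ht.2.2, h5]
          omega
        obtain ⟨w, hw⟩ := card_eq_one.1 h6
        have hw1 : w ∈ t ∧ w ∉ r := by
          rw [← mem_sdiff, hw]
          exact mem_singleton_self w
        refine ⟨w, hw1.1, ?_⟩
        refine (eq_of_subset_of_card_le (subset_erase.2 ⟨h4, hw1.2⟩) ?_).symm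
        rw [card_erase_of_mem hw1.1, ht.2.2, h5]
        omega
      · rintro ⟨⟨v, hv, rfl⟩, h3⟩
        exact ⟨h3, erase_subset v t⟩
    rw [h2, sum_image]
    · unfold cob
      refine sum_congr rfl fun v _ => ?_
      by_cases h3 : t.erase v ∈ R
      · rw [if_pos h3]
      · rw [if_neg h3]
        rw [hR, not_not] at h3
        exact h3
    · intro v hv w hw hvw
      have hvw' : t.erase v = t.erase w := hvw
      exact erase_injOn t hv hw hvw'
  rw [finsum_eq_sum_of_support_subset (s := T) _ (by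
    intro t ht
    rw [Function.mem_support] at ht
    have h2 : Top K B n t := by
      by_contra h
      exact ht (if_neg h)
    rw [if_pos h2, h1 t h2] at ht
    obtain ⟨r, hr, hne⟩ := exists_ne_zero_of_sum_ne_zero ht
    have h3 : r ⊆ t := by
      by_contra h
      exact hne (if_neg h)
    exact mem_coe.2 (mem_biUnion.2 ⟨r, hr, (mem_cofsP hM (hω r ((hR r).1 hr)).1).2
      ⟨h2.1, h3, h2.2.2⟩⟩))]
  have h2 : ∀ t ∈ T, (if Top K B n t then cob ω t else 0) =
      ∑ r ∈ R, if t ∈ cofs K r (n + 1) then ω r else 0 := by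
    intro t ht
    by_cases h3 : Top K B n t
    · rw [if_pos h3, h1 t h3]
      refine sum_congr rfl fun r hr => if_congr ?_ rfl rfl
      rw [mem_cofsP hM (hω r ((hR r).1 hr)).1]
      exact ⟨fun h => ⟨h3.1, h, h3.2.2⟩, fun h => h.2.1⟩
    · rw [if_neg h3]
      symm
      refine sum_eq_zero fun r hr => if_neg fun h => h3 ?_
      have h4 := hω r ((hR r).1 hr)
      rw [mem_cofsP hM h4.1] at h
      exact ⟨h.1, fun h5 => h4.2.1 (hM.bd_down t h5 r h.2.1 (hM.ne r h4.1)), h.2.2⟩
  rw [sum_congr rfl h2, sum_comm]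
  refine sum_eq_zero fun r hr => ?_
  have h3 : ∑ t ∈ T, (if t ∈ cofs K r (n + 1) then ω r else 0) =
      ∑ t ∈ cofs K r (n + 1), ω r := by
    rw [← sum_filter]
    refine sum_congr ?_ fun _ _ => rfl
    ext t
    rw [mem_filter]
    exact ⟨fun h => h.2, fun h => ⟨mem_biUnion.2 ⟨r, hr, h⟩, h⟩⟩
  have h4 := hω r ((hR r).1 hr)
  rw [h3, sum_const, nsmul_eq_mul, hM.even r h4.1 h4.2.1 h4.2.2, zero_mul]

end Pool.Agent.H45.DA
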